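import Mathlib
import Pool.Agent.Helper35.PI2.St

/-!
Project PI2 (MP_b2fa09_gt), module ET: the energy inequality on a short time interval.
-/

namespace Helper61.PI2

open Helper35.PI Helper35.PI2
open scoped ContDiff Manifold Topology ENNReal BigOperators
open MeasureTheory Set Filter

theorem slice_cont {M : Type} [TopologicalSpace M] {E : Type} [TopologicalSpace E]
    {g : M → ℝ → E} (hg : ContinuousOn (fun z : M × ℝ => g z.1 z.2) (univ ×ˢ Iio 0)) {t : ℝ}
    (ht : t < 0) : Continuous (fun q => g q t) := by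
  have h := hg.comp_continuous (f := fun q : M => (q, t)) (by fun_prop)
    (fun q => ⟨mem_univ _, ht⟩)
  exact h

theorem chart_cont {n : ℕ} {M : Type} [TopologicalSpace M] [ChartedSpace (EE n) M] {E : Type}
    [TopologicalSpace E] {g : M → ℝ → E}
    (hg : ContinuousOn (fun z : M × ℝ => g z.1 z.2) (univ ×ˢ Iio 0)) (p : M) {s₁ s₂ : ℝ}
    (h2 : s₂ < 0) :
    ContinuousOn (fun z : EE n × ℝ => g ((chartAt (EE n) p).symm z.1) z.2)
      ((chartAt (EE n) p).target ×ˢ Icc s₁ s₂) := by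
  have h : ContinuousOn (fun z : EE n × ℝ => ((chartAt (EE n) p).symm z.1, z.2))
      ((chartAt (EE n) p).target ×ˢ Icc s₁ s₂) := by
    refine ContinuousOn.prodMk ?_ continuousOn_snd
    exact (chartAt (EE n) p).continuousOn_symm.comp continuousOn_fst (fun z hz => hz.1)
  exact hg.comp h (fun z hz => ⟨mem_univ _, lt_of_le_of_lt hz.2.2 h2⟩)

theorem hET (hEI : StEI) (hLL : StLL) (hLT : StLT) (hFU : StFU) (hEB : StEB) (hI4 : StI4) :
    StET := by
  intro n N M _ _ _ _ F hF hRP hcpt c χ hPU R C₁ δ a hR hC₁ hδ ha harea hθ hX t₀ ht₀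
  obtain ⟨K, hK, η, hη, hKη⟩ := hRP t₀ R ht₀
  refine ⟨η, hη, ?_⟩
  intro s₁ s₂ h01 h12 h2η h20
  classical
  obtain ⟨hEB0, hEBθ, hEBψ, hEBp⟩ := hEB n N M F hF R hR
  obtain ⟨hI4F, hI4H, -, -⟩ := hI4 n N M F hF
  -- the finite set
  have hfin := hPU.fin.finite_nonempty_inter_compact hK
  set s : Finset ℕ := hfin.toFinset with hs
  have hs0 : ∀ r, s₁ ≤ r → r ≤ s₂ → ∀ i ∉ s, ∀ q, ‖F q r‖ ≤ R → χ i q = 0 := by
    intro r hr1 hr2 i hi q hq
    by_contra hne
    apply hi
    rw [hs, Set.Finite.mem_toFinset]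
    exact ⟨q, subset_tsupport _ hne,
      hKη r (by linarith) (by linarith) (by linarith) q hq⟩
  -- continuity of the functions
  have hcH : ContinuousOn (fun z : M × ℝ => psR R F z.1 z.2 ^ 4 *
      (‖HH (n := n) F z.1 z.2‖ ^ 2 * thF n F z.1 z.2)) (univ ×ˢ Iio 0) :=
    (hEBψ.pow 4).mul ((hI4H.norm.pow 2).mul hEBθ)
  have hcθ : ContinuousOn (fun z : M × ℝ => psR R F z.1 z.2 ^ 4 * thF n F z.1 z.2)
      (univ ×ˢ Iio 0) := (hEBψ.pow 4).mul hEBθ
  -- the functions of time
  set e : ℝ → ℝ := fun r => Ls n F c χ s r (fun q => psR R F q r ^ 4 * thF n F q r) with he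
  set d : ℝ → ℝ := fun r => Ls n F c χ s r
    (fun q => psR R F q r ^ 4 * (‖HH (n := n) F q r‖ ^ 2 * thF n F q r)) with hd
  set b : ℝ → ℝ := fun r => Ls n F c χ s r (fun q => bE n R F q r) with hb
  have hpsi0 : ∀ (q : M) (t : ℝ), t < 0 → R < ‖F q t‖ → psR R F q t = 0 :=
    fun q t ht hq => (hEB0 q t ht hq.le).2
  -- `Lam` of the energy
  have hLe : ∀ r, s₁ ≤ r → r ≤ s₂ →
      Lam (n := n) F c χ r (fun q => ENNReal.ofReal (psR R F q r ^ 4 * thF n F q r))
        = ENNReal.ofReal (e r) ∧ 0 ≤ e r := by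
    intro r hr1 hr2
    have hr0 : r < 0 := by linarith
    refine hLL n N M F c χ hPU r s (fun q => psR R F q r ^ 4 * thF n F q r) ?_ ?_ ?_
    · intro q
      have := hθ q r hr0
      positivity
    · intro i hi q
      rcases le_or_gt ‖F q r‖ R with h | h
      · rw [hs0 r hr1 hr2 i hi q h, zero_mul]
      · rw [hpsi0 q r hr0 h]; simp
    · intro i _
      exact (hLT n N M F hF r hr0 c χ hPU i).1 _
        (slice_cont (g := fun q r => psR R F q r ^ 4 * thF n F q r) hcθ hr0)
  have hLd : ∀ r, s₁ ≤ r → r ≤ s₂ →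
      Lam (n := n) F c χ r (fun q => ENNReal.ofReal
        (psR R F q r ^ 4 * (‖HH (n := n) F q r‖ ^ 2 * thF n F q r)))
        = ENNReal.ofReal (d r) ∧ 0 ≤ d r := by
    intro r hr1 hr2
    have hr0 : r < 0 := by linarith
    refine hLL n N M F c χ hPU r s
      (fun q => psR R F q r ^ 4 * (‖HH (n := n) F q r‖ ^ 2 * thF n F q r)) ?_ ?_ ?_
    · intro q
      have := hθ q r hr0
      positivity
    · intro i hi q
      rcases le_or_gt ‖F q r‖ R with h | h
      · rw [hs0 r hr1 hr2 i hi q h, zero_mul]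
      · rw [hpsi0 q r hr0 h]; simp
    · intro i _
      exact (hLT n N M F hF r hr0 c χ hPU i).1 _
        (slice_cont (g := fun q r => psR R F q r ^ 4 *
          (‖HH (n := n) F q r‖ ^ 2 * thF n F q r)) hcH hr0)
  have hLi : ∀ r, s₁ ≤ r → r ≤ s₂ →
      Ls n F c χ s r (indicator {q : M | ‖F q r‖ ≤ R} (1 : M → ℝ)) ≤ a := by
    intro r hr1 hr2
    have hr0 : r < 0 := by linarith
    have h := hLL n N M F c χ hPU r s (indicator {q : M | ‖F q r‖ ≤ R} (1 : M → ℝ)) ?_ ?_ ?_
    · have h1 : (fun q => ENNReal.ofReal (indicator {q : M | ‖F q r‖ ≤ R} (1 : M → ℝ) q))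
          = indicator {q : M | ‖F q r‖ ≤ R} (1 : M → ℝ≥0∞) := by
        funext q
        by_cases hq : q ∈ {q : M | ‖F q r‖ ≤ R}
        · rw [indicator_of_mem hq, indicator_of_mem hq]; simp
        · rw [indicator_of_notMem hq, indicator_of_notMem hq]; simp
      rw [h1] at h
      have h2 := harea r hr0
      rw [h.1] at h2
      exact (ENNReal.ofReal_le_ofReal_iff ha).1 h2
    · intro q
      exact indicator_nonneg (fun _ _ => zero_le_one) q
    · intro i hi q
      by_cases hq : q ∈ {q : M | ‖F q r‖ ≤ R}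
      · rw [hs0 r hr1 hr2 i hi q hq, zero_mul]
      · rw [indicator_of_notMem hq, mul_zero]
    · intro i _
      refine (hLT n N M F hF r hr0 c χ hPU i).2.1 _ ?_
      exact isClosed_le (slice_cont hI4F hr0).norm continuous_const
  -- the inequality at one time
  have hbd : ∀ r, s₁ ≤ r → r ≤ s₂ → b r ≤ C₁ * a - δ * d r := by
    intro r hr1 hr2
    have hr0 : r < 0 := by linarith
    obtain ⟨X, hX1, hX2, hX3, hX4⟩ := hX r hr0
    have h := hEI n N M F hF r R C₁ δ hr0 hR (hcpt r R hr0) c χ hPU X hX1 hX2 hX3 hX4 s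
      (hs0 r hr1 hr2)
    have h1 := mul_le_mul_of_nonneg_left (hLi r hr1 hr2) hC₁
    simp only [hb, hd]
    linarith
  -- compact sets in the charts
  have hTo : ∀ i, IsOpen (chartAt (EE n) (c i)).target := fun i => (chartAt (EE n) (c i)).open_target
  have hKc : ∀ i, IsCompact ((chartAt (EE n) (c i)) '' tsupport (χ i)) := fun i =>
    (hPU.cpt i).image_of_continuousOn
      ((chartAt (EE n) (c i)).continuousOn.mono (hPU.sub i))
  have hKT : ∀ i, (chartAt (EE n) (c i)) '' tsupport (χ i) ⊆ (chartAt (EE n) (c i)).target := by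
    rintro i _ ⟨q, hq, rfl⟩
    exact (chartAt (EE n) (c i)).map_source (hPU.sub i hq)
  have hχc : ∀ i, ContinuousOn (fun y => χ i ((chartAt (EE n) (c i)).symm y))
      (chartAt (EE n) (c i)).target := fun i =>
    (hPU.smooth i).continuous.comp_continuousOn (chartAt (EE n) (c i)).continuousOn_symm
  have hχ0 : ∀ i, ∀ y ∈ (chartAt (EE n) (c i)).target,
      y ∉ (chartAt (EE n) (c i)) '' tsupport (χ i) →
      χ i ((chartAt (EE n) (c i)).symm y) = 0 := by
    intro i y hy hyK
    by_contra hne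
    exact hyK ⟨(chartAt (EE n) (c i)).symm y, subset_tsupport _ hne,
      (chartAt (EE n) (c i)).right_inv hy⟩
  have hsub : ∀ i, (chartAt (EE n) (c i)).target ×ˢ Icc s₁ s₂ ⊆
      (chartAt (EE n) (c i)).target ×ˢ Iio (0 : ℝ) := fun i z hz =>
    ⟨hz.1, lt_of_le_of_lt hz.2.2 h20⟩
  have hσ : ∀ i, ContinuousOn (fun z : EE n × ℝ => sgm (loc (n := n) F (c i) z.2) z.1)
      ((chartAt (EE n) (c i)).target ×ˢ Icc s₁ s₂) := fun i =>
    (hEBp (c i)).2.2.mono (hsub i)
  -- continuity of `d`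
  have hdc : ContinuousOn d (Icc s₁ s₂) := by
    simp only [hd, Ls]
    refine continuousOn_finsetSum _ fun i _ => ?_
    have hcont : ContinuousOn (fun z : EE n × ℝ =>
        psR R F ((chartAt (EE n) (c i)).symm z.1) z.2 ^ 4 *
          (‖HH (n := n) F ((chartAt (EE n) (c i)).symm z.1) z.2‖ ^ 2 *
            thF n F ((chartAt (EE n) (c i)).symm z.1) z.2)
          * sgm (loc (n := n) F (c i) z.2) z.1)
        ((chartAt (EE n) (c i)).target ×ˢ Icc s₁ s₂) :=
      ContinuousOn.mul (chart_cont (g := fun q r => psR R F q r ^ 4 *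
        (‖HH (n := n) F q r‖ ^ 2 * thF n F q r)) hcH (c i) h20) (hσ i)
    exact (hFU n _ _ (hTo i) (hKc i) (hKT i) (fun y => χ i ((chartAt (EE n) (c i)).symm y))
      (hχc i) (hχ0 i) s₁ s₂ h12 (fun y r => psR R F ((chartAt (EE n) (c i)).symm y) r ^ 4 *
          (‖HH (n := n) F ((chartAt (EE n) (c i)).symm y) r‖ ^ 2 *
            thF n F ((chartAt (EE n) (c i)).symm y) r)
          * sgm (loc (n := n) F (c i) r) y) hcont).2.1
  -- the derivative of `e`
  have hbi : ∀ i, ContinuousOn (fun r => ∫ y in (chartAt (EE n) (c i)).target,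
        χ i ((chartAt (EE n) (c i)).symm y) *
          (bE n R F ((chartAt (EE n) (c i)).symm y) r * sgm (loc (n := n) F (c i) r) y))
        (Icc s₁ s₂) ∧
      (∫ y in (chartAt (EE n) (c i)).target, χ i ((chartAt (EE n) (c i)).symm y) *
          (psR R F ((chartAt (EE n) (c i)).symm y) s₂ ^ 4
            * thF n F ((chartAt (EE n) (c i)).symm y) s₂ * sgm (loc (n := n) F (c i) s₂) y))
        - (∫ y in (chartAt (EE n) (c i)).target, χ i ((chartAt (EE n) (c i)).symm y) *
          (psR R F ((chartAt (EE n) (c i)).symm y) s₁ ^ 4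
            * thF n F ((chartAt (EE n) (c i)).symm y) s₁ * sgm (loc (n := n) F (c i) s₁) y))
        = ∫ r in s₁..s₂, ∫ y in (chartAt (EE n) (c i)).target,
          χ i ((chartAt (EE n) (c i)).symm y) *
          (bE n R F ((chartAt (EE n) (c i)).symm y) r * sgm (loc (n := n) F (c i) r) y) := by
    intro i
    have h := hFU n _ _ (hTo i) (hKc i) (hKT i)
      (fun y => χ i ((chartAt (EE n) (c i)).symm y)) (hχc i) (hχ0 i) s₁ s₂ h12
      (fun y r => bE n R F ((chartAt (EE n) (c i)).symm y) r * sgm (loc (n := n) F (c i) r) y)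
      ((hEBp (c i)).2.1.mono (hsub i))
    refine ⟨h.2.1, ?_⟩
    refine h.2.2 (fun y r => psR R F ((chartAt (EE n) (c i)).symm y) r ^ 4
            * thF n F ((chartAt (EE n) (c i)).symm y) r * sgm (loc (n := n) F (c i) r) y) ?_ ?_
    · intro y hy r hr
      exact (hEBp (c i)).1 y hy r (lt_of_le_of_lt hr.2 h20)
    · exact ContinuousOn.mul (chart_cont (g := fun q r => psR R F q r ^ 4 * thF n F q r)
        hcθ (c i) h20) (hσ i)
  have hbc : ContinuousOn b (Icc s₁ s₂) := by
    simp only [hb, Ls]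
    exact continuousOn_finsetSum _ fun i _ => (hbi i).1
  have hbe : e s₂ - e s₁ = ∫ r in s₁..s₂, b r := by
    simp only [he, hb, Ls]
    rw [intervalIntegral.integral_finsetSum, ← Finset.sum_sub_distrib]
    · exact Finset.sum_congr rfl fun i _ => (hbi i).2
    · intro i _
      apply ContinuousOn.intervalIntegrable
      rw [uIcc_of_le h12]
      exact (hbi i).1
  have hdI : IntervalIntegrable d volume s₁ s₂ := by
    apply ContinuousOn.intervalIntegrable
    rwa [uIcc_of_le h12]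
  have hmain : e s₂ + δ * (∫ r in s₁..s₂, d r) ≤ e s₁ + C₁ * a * (s₂ - s₁) := by
    have h1 : ∫ r in s₁..s₂, b r ≤ ∫ r in s₁..s₂, (C₁ * a - δ * d r) := by
      refine intervalIntegral.integral_mono_on h12 ?_ ?_ ?_
      · apply ContinuousOn.intervalIntegrable
        rwa [uIcc_of_le h12]
      · exact (intervalIntegrable_const).sub (hdI.const_mul δ)
      · intro r hr
        exact hbd r hr.1 hr.2
    rw [intervalIntegral.integral_sub intervalIntegrable_const (hdI.const_mul δ),
      intervalIntegral.integral_const, intervalIntegral.integral_const_mul, smul_eq_mul,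
      ← hbe] at h1
    nlinarith [h1]
  -- transfer
  have hdint : ∫⁻ r in Icc s₁ s₂, Lam (n := n) F c χ r (fun q => ENNReal.ofReal
      (psR R F q r ^ 4 * (‖HH (n := n) F q r‖ ^ 2 * thF n F q r)))
      = ENNReal.ofReal (∫ r in s₁..s₂, d r) := by
    rw [setLIntegral_congr_fun measurableSet_Icc
      (fun r hr => (hLd r hr.1 hr.2).1), intervalIntegral.integral_of_le h12,
      ← integral_Icc_eq_integral_Ioc, ofReal_integral_eq_lintegral_ofReal]
    · exact hdc.integrableOn_Icc
    · exact (ae_restrict_iff' measurableSet_Icc).2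
        (Filter.Eventually.of_forall fun r hr => (hLd r hr.1 hr.2).2)
  have hdpos : 0 ≤ ∫ r in s₁..s₂, d r :=
    intervalIntegral.integral_nonneg h12 fun r hr => (hLd r hr.1 hr.2).2
  rw [hdint, (hLe s₂ h12 le_rfl).1, (hLe s₁ le_rfl h12).1, ← ENNReal.ofReal_mul hδ,
    ← ENNReal.ofReal_add (hLe s₂ h12 le_rfl).2 (mul_nonneg hδ hdpos),
    ← ENNReal.ofReal_add (hLe s₁ le_rfl h12).2
      (mul_nonneg (mul_nonneg hC₁ ha) (by linarith))]
  exact ENNReal.ofReal_le_ofReal hmain

end Helper61.PI2
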